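import Pool.Agent.helper31.GPR.Spec

set_option autoImplicit false

namespace Pool.Agent.GPR

open Pool.Agent.helper25.QST

theorem MLA : MLA_stmt := by
  intro V _ _ S J hJ x h y hx hxh hy
  have h1 := hJ.sym x hx y hy
  have h2 := hJ.sym (x + h) hxh y hy
  have e1 : J y x + J y x = 0 := ZModModule.add_self _
  have e : (J x + J (x + h)) y + J y h = (J x y + J y x) + (J (x + h) y + J y (x + h)) := by
    have e2 : (J x y + J y x) + (J (x + h) y + J y (x + h)) =
        (J x + J (x + h)) y + J y h + (J y x + J y x) := by
      rw [map_add, LinearMap.add_apply]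
      abel
    rw [e2, e1, add_zero]
  rw [e]
  refine Submodule.add_mem _ (Submodule.span_mono ?_ h1) (Submodule.span_le.2 ?_ h2)
  · intro z hz
    simp only [Set.mem_insert_iff, Set.mem_singleton_iff] at hz ⊢
    tauto
  · intro z hz
    simp only [Set.mem_insert_iff, Set.mem_singleton_iff] at hz
    rcases hz with rfl | rfl
    · exact Submodule.add_mem _ (Submodule.subset_span (by simp)) (Submodule.subset_span (by simp))
    · exact Submodule.subset_span (by simp)

end Pool.Agent.GPR
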